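import Mathlib
import Pool.Agent.Q256.VT.Fin

set_option autoImplicit false

/-!
# Vojta's inequality with truncated counting function for almost all divisors of projective space

`X = ℙⁿ` over `ℚ`, `D = D₁ + ⋯ + D_r` with `D_i` the hypersurface `F_i = 0` of degree `d_i`, so that
`K_X + D` has degree `∑ d_i - (n + 1)`.  The coefficients of the `F_i` run through `[-H, H]`, there
are `M` of them.  For almost all `D` the inequality
`N_S^(1)(D, P) ≥ (deg (K_X + D) - ε) h(P) + (r - δ) log T`
holds for ALL rational points `P` outside `D` which are cut out by `n` hyperplanes with integral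
coefficients in `[-T, T]`, in particular for all points with `h(P) ≤ log T`; the exceptional `D` are
at most `C T^(M - δ + ε)` in number (`T ≥ H`).

* `Box n d B` : forms of degree `d` in `n + 1` variables, integral coefficients in `[-B, B]`;
* `Prim y` : the integral vector `y` has coprime coordinates; `ht y` : its logarithmic height;
* `CutOut T x` : `x` is the intersection point of `n` independent hyperplanes with integral
  coefficients in `[-T, T]`;
* `N1 S F y` : sum of `log p` over the primes `p` outside `S` dividing `∏ i, F i (y)`;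
* `Fails S d H T ε δ` : the systems for which the inequality fails at such a point;
* `IntS S d H T` : the systems whose complement `ℙⁿ \ D` has an `S`-integral point of this kind;
* `Camp S d m H T` : the systems for which the pair `(ℙⁿ, ∑ (1 - 1 / m_i) D_i)` has an `S`-integral
  Campana point of this kind.
-/

namespace Pool.Agent.Results.MP_9ec3f0_nt.AlmostAllDivisors

open Pool.Agent.Q256.CI Pool.Agent.Q256.VT

theorem result (n r : ℕ) (S : Finset ℕ) (d : Fin r → ℕ) (hd : ∀ i, 1 ≤ d i) (ε : ℝ) (hε : 0 < ε) :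
    -- the truncated inequality for all points, for almost all divisors
    (∃ C : ℝ, ∀ (δ : ℝ) (H T : ℕ), 1 ≤ H → H ≤ T →
      (Nat.card (Fails (n := n) S d H T ε δ) : ℝ) ≤
        C * (T : ℝ) ^ ((∑ i, ((n + d i).choose n : ℝ)) - δ + ε)) ∧
    -- integral points of the complement, log general type
    (n + 2 ≤ ∑ i, d i → ∃ C : ℝ, ∀ H T : ℕ, 1 ≤ H → H ≤ T →
      (Nat.card (IntS (n := n) S d H T) : ℝ) ≤
        C * (T : ℝ) ^ ((∑ i, ((n + d i).choose n : ℝ)) - r + ε)) ∧
    -- Campana points, pairs of general type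
    (∀ m : Fin r → ℕ, (∀ i, 1 ≤ m i) → (n : ℝ) + 1 < ∑ i, (d i : ℝ) * (1 - 1 / m i) →
      ∃ C : ℝ, ∀ H T : ℕ, 1 ≤ H → H ≤ T →
        (Nat.card (Camp (n := n) S d m H T) : ℝ) ≤
          C * (T : ℝ) ^ ((∑ i, ((n + d i).choose n : ℝ)) - (∑ i, (1 - 1 / (m i : ℝ))) + ε)) ∧
    -- the number of all divisors, and the points of height at most `T`
    (∀ H : ℕ, Nat.card {F : Fin r → MvPolynomial (Fin (n + 1)) ℤ // ∀ i, F i ∈ Box n (d i) H} =
      (2 * H + 1) ^ (∑ i, (n + d i).choose n)) ∧
    (∀ (T : ℕ) (y : Fin (n + 1) → ℤ), y ≠ 0 → (∀ k, |y k| ≤ T) →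
      CutOut T (fun k => (y k : ℚ))) := by
  refine ⟨?_, fun hsum => ?_, fun m hm hsum => ?_, fun H => total d H,
    fun T y hy hT => cutOut_small T y hy hT⟩
  · obtain ⟨C, hC⟩ := fails (n := n) S d hd ε hε
    exact ⟨C, fun δ H T hH hHT => hC δ H T (hH.trans hHT) hHT⟩
  · obtain ⟨C, hC⟩ := ints (n := n) S d hd hsum ε hε
    exact ⟨C, fun H T hH hHT => hC H T (hH.trans hHT) hHT⟩
  · obtain ⟨C, hC⟩ := camp (n := n) S d m hd hm hsum ε hε
    exact ⟨C, fun H T hH hHT => hC H T (hH.trans hHT) hHT⟩

end Pool.Agent.Results.MP_9ec3f0_nt.AlmostAllDivisors
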