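import Pool.Agent.Q272.GL.M

/-!
# Generic limit points of the truncated counting functions of hyperplanes

`K` is a number field, `S` a finite set of primes of `K` and `D` the union of `q` hyperplanes
`a 0, …, a (q - 1)` in general position in the projective space `ℙⁿ` over `K`. Question Q1 for
`X = ℙⁿ` and `D` says, roughly, `N⁽¹⁾(D, P) / h(P) ≥ q - n - 1 - ε` outside a proper closed subset.

We study all the limits of `N⁽¹⁾(D, P) / h(P)`, and of the vectors
`(N⁽¹⁾(H_i, P) / h(P))_i` in `[0, 1]^q`, along GENERIC sequences of points of `ℙⁿ(K)`, those for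
which every proper closed subset contains only finitely many terms.
-/

set_option autoImplicit false

open NumberField Filter Topology
open scoped LinearAlgebra.Projectivization

namespace Pool.Agent.Results.MP_9ec3f0_nt.GenericLimitPoints

variable {K : Type} [Field K] [NumberField K] {n q : ℕ}

/-- the value of the linear form with coefficients `b` -/
def form (b x : Fin (n + 1) → K) : K := ∑ j, b j * x j

/-- The hyperplanes `a i = 0` are in general position: any `n + 1` of the linear forms `a i` are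
linearly independent. -/
def GeneralPosition (a : Fin q → Fin (n + 1) → K) : Prop :=
  ∀ I : Finset (Fin q), I.card = n + 1 → LinearIndependent K fun i : I => a i

/-- the absolute logarithmic height of a point -/
noncomputable def h (P : ℙ K (Fin (n + 1) → K)) : ℝ :=
  Height.logHeight P.rep / Module.finrank ℚ K

/-- The point `P` meets the hyperplane `b = 0` modulo the prime of `v`: the local height
`λ_v(b, P) = log (|b|_v |P|_v / |b(P)|_v)` is positive. -/
def Meets (v : FinitePlace K) (b : Fin (n + 1) → K) (P : ℙ K (Fin (n + 1) → K)) : Prop :=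
  v (form b P.rep) < (⨆ j, v (b j)) * ⨆ j, v (P.rep j)

/-- The truncated counting function of the hyperplane `b = 0`: each prime outside `S` at which `P`
meets the hyperplane counts `log N(𝔭) / [K : ℚ]`. -/
noncomputable def NH (S : Finset (FinitePlace K)) (b : Fin (n + 1) → K)
    (P : ℙ K (Fin (n + 1) → K)) : ℝ :=
  (∑ᶠ v ∈ {v : FinitePlace K | v ∉ S ∧ Meets v b P},
      Real.log ((Ideal.absNorm v.maximalIdeal.asIdeal : ℕ) : ℝ)) / Module.finrank ℚ K

/-- The truncated counting function of the divisor `D`, the union of the hyperplanes `a i = 0`: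
each prime outside `S` at which `P` meets one of the hyperplanes counts once. -/
noncomputable def ND (S : Finset (FinitePlace K)) (a : Fin q → Fin (n + 1) → K)
    (P : ℙ K (Fin (n + 1) → K)) : ℝ :=
  (∑ᶠ v ∈ {v : FinitePlace K | v ∉ S ∧ ∃ i, Meets v (a i) P},
      Real.log ((Ideal.absNorm v.maximalIdeal.asIdeal : ℕ) : ℝ)) / Module.finrank ℚ K

/-- A generic sequence of points outside `D` with heights tending to infinity: every hypersurface
`F = 0` (hence every proper closed subset) contains only finitely many terms. -/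
structure IsGeneric (a : Fin q → Fin (n + 1) → K) (P : ℕ → ℙ K (Fin (n + 1) → K)) : Prop where
  off : ∀ k i, form (a i) (P k).rep ≠ 0
  height : Tendsto (fun k => h (P k)) atTop atTop
  generic : ∀ (d : ℕ) (F : MvPolynomial (Fin (n + 1)) K), F.IsHomogeneous d → F ≠ 0 →
    ∀ᶠ k in atTop, MvPolynomial.eval (P k).rep F ≠ 0

/-- `s` is the limit of `ND / h` along some generic sequence. -/
def IsLimit (S : Finset (FinitePlace K)) (a : Fin q → Fin (n + 1) → K) (s : ℝ) : Prop :=
  ∃ P : ℕ → ℙ K (Fin (n + 1) → K), IsGeneric a P ∧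
    Tendsto (fun k => ND S a (P k) / h (P k)) atTop (𝓝 s)

/-- Along some generic sequence `NH (a i) / h` tends to `θ i` for all `i`, and `ND / h` to `τ`. -/
def IsJointLimit (S : Finset (FinitePlace K)) (a : Fin q → Fin (n + 1) → K) (θ : Fin q → ℝ)
    (τ : ℝ) : Prop :=
  ∃ P : ℕ → ℙ K (Fin (n + 1) → K), IsGeneric a P ∧
    (∀ i, Tendsto (fun k => NH S (a i) (P k) / h (P k)) atTop (𝓝 (θ i))) ∧
    Tendsto (fun k => ND S a (P k) / h (P k)) atTop (𝓝 τ)

/-- Question Q1 for `ℙⁿ`, the divisor `D` of the `q` hyperplanes and the set `S`: for every `ε > 0`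
there is a hypersurface `F = 0` such that for each `C ≥ 0` all but finitely many points `P` outside
it and outside `D` satisfy `N⁽¹⁾(D, P) ≥ (q - (n + 1)) h(P) - ε h(P) - C`. -/
def Q1 (S : Finset (FinitePlace K)) (a : Fin q → Fin (n + 1) → K) : Prop :=
  ∀ ε : ℝ, 0 < ε → ∃ (d : ℕ) (F : MvPolynomial (Fin (n + 1)) K), F.IsHomogeneous d ∧ F ≠ 0 ∧
    ∀ C : ℝ, 0 ≤ C → {P : ℙ K (Fin (n + 1) → K) | MvPolynomial.eval P.rep F ≠ 0 ∧
      (∀ i, form (a i) P.rep ≠ 0) ∧
      ND S a P < ((q : ℝ) - ((n : ℝ) + 1)) * h P - ε * h P - C}.Finite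

/-! ### Comparison with the library -/

theorem sum_eq (T : Set (FinitePlace K)) :
    (∑ᶠ v ∈ T, Real.log ((Ideal.absNorm v.maximalIdeal.asIdeal : ℕ) : ℝ)) =
      Real.log (Q265.NF.PP T) := by
  unfold Q265.NF.PP
  rw [Real.log_finprod (fun v => lt_of_lt_of_le one_pos (Q241.AK.one_le_pr _ v))]
  refine finsum_congr fun v => ?_
  classical
  rw [finsum_eq_if]
  unfold Q241.AK.pr Q241.AK.N
  by_cases hv : v ∈ T
  · rw [if_pos hv, if_pos hv]
  · rw [if_neg hv, if_neg hv, Real.log_one]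

theorem NH_eq (S : Finset (FinitePlace K)) (b : Fin (n + 1) → K) (P : ℙ K (Fin (n + 1) → K)) :
    NH S b P = Real.log (Q265.NF.PP (Q272.GL.MH S b P.rep)) / Module.finrank ℚ K := by
  unfold NH
  rw [sum_eq]
  rfl

theorem ND_eq (S : Finset (FinitePlace K)) (a : Fin q → Fin (n + 1) → K)
    (P : ℙ K (Fin (n + 1) → K)) :
    ND S a P = Real.log (Q265.NF.PP (Q272.GL.UH S a P.rep)) / Module.finrank ℚ K := by
  unfold ND
  rw [sum_eq]
  rfl

theorem finrank_pos' (K : Type) [Field K] [NumberField K] : (0 : ℝ) < Module.finrank ℚ K := by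
  exact_mod_cast Module.finrank_pos

theorem ratioH (S : Finset (FinitePlace K)) (b : Fin (n + 1) → K) (P : ℙ K (Fin (n + 1) → K)) :
    NH S b P / h P =
      Real.log (Q265.NF.PP (Q272.GL.MH S b P.rep)) / Height.logHeight P.rep := by
  rw [NH_eq]
  unfold h
  rw [div_div_div_cancel_right₀ (finrank_pos' K).ne']

theorem ratioD (S : Finset (FinitePlace K)) (a : Fin q → Fin (n + 1) → K)
    (P : ℙ K (Fin (n + 1) → K)) :
    ND S a P / h P =
      Real.log (Q265.NF.PP (Q272.GL.UH S a P.rep)) / Height.logHeight P.rep := by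
  rw [ND_eq]
  unfold h
  rw [div_div_div_cancel_right₀ (finrank_pos' K).ne']

theorem height_iff (P : ℕ → ℙ K (Fin (n + 1) → K)) :
    Tendsto (fun k => h (P k)) atTop atTop ↔
      Tendsto (fun k => Height.logHeight (P k).rep) atTop atTop := by
  have hd := finrank_pos' K
  unfold h
  constructor
  · intro H
    have := H.atTop_mul_const hd
    refine this.congr fun k => ?_
    field_simp
  · intro H
    exact H.atTop_div_const hd

theorem limit_iff (S : Finset (FinitePlace K)) (a : Fin q → Fin (n + 1) → K) (s : ℝ) :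
    IsLimit S a s ↔ Q272.GL.GP S a s := by
  rw [Q272.GL.GP_iff]
  constructor
  · rintro ⟨P, ⟨h1, h2, h3⟩, h4⟩
    refine ⟨P, h1, h3, (height_iff P).1 h2, ?_⟩
    simpa only [ratioD] using h4
  · rintro ⟨P, h1, h2, h3, h4⟩
    refine ⟨P, ⟨h1, (height_iff P).2 h3, h2⟩, ?_⟩
    simpa only [ratioD] using h4

theorem joint_of {S : Finset (FinitePlace K)} {a : Fin q → Fin (n + 1) → K} {θ : Fin q → ℝ}
    {τ : ℝ} (H : Q272.GL.JP S a θ τ) : IsJointLimit S a θ τ := by
  obtain ⟨P, h1, h2, h3, h4, h5⟩ := Q272.GL.JP_seq H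
  refine ⟨P, ⟨h1, (height_iff P).2 h3, h2⟩, fun i => ?_, ?_⟩
  · simpa only [ratioH] using h4 i
  · simpa only [ratioD] using h5

theorem q1_of (S : Finset (FinitePlace K)) (a : Fin q → Fin (n + 1) → K) :
    Q1 S a ↔ ∀ s, IsLimit S a s → (q : ℝ) - ((n : ℝ) + 1) ≤ s := by
  have hd := finrank_pos' K
  simp_rw [limit_iff]
  rw [← Q272.GL.q1_iff S a ((q : ℝ) - ((n : ℝ) + 1))]
  have key : ∀ (ε C : ℝ) (P : ℙ K (Fin (n + 1) → K)),
      ND S a P < ((q : ℝ) - ((n : ℝ) + 1)) * h P - ε * h P - C ↔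
        Real.log (Q265.NF.PP (Q272.GL.UH S a P.rep)) <
          ((q : ℝ) - ((n : ℝ) + 1) - ε) * Height.logHeight P.rep - Module.finrank ℚ K * C := by
    intro ε C P
    rw [ND_eq, div_lt_iff₀ hd]
    have e : (((q : ℝ) - ((n : ℝ) + 1)) * h P - ε * h P - C) * Module.finrank ℚ K =
        ((q : ℝ) - ((n : ℝ) + 1) - ε) * Height.logHeight P.rep - Module.finrank ℚ K * C := by
      unfold h
      field_simp
      try ring
    rw [e]
  constructor
  · intro H ε hε
    obtain ⟨d, F, h1, h2, h3⟩ := H ε hε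
    refine ⟨d, F, h2, h1, fun C hC => ?_⟩
    refine (h3 (C / Module.finrank ℚ K) (div_nonneg hC hd.le)).subset ?_
    rintro P ⟨g1, g2, g3⟩
    refine ⟨g1, g2, (key ε _ P).2 ?_⟩
    rw [mul_div_cancel₀ C hd.ne']
    exact g3
  · intro H ε hε
    obtain ⟨d, F, h2, h1, h3⟩ := H ε hε
    refine ⟨d, F, h1, h2, fun C hC => ?_⟩
    refine (h3 (Module.finrank ℚ K * C) (mul_nonneg hd.le hC)).subset ?_
    rintro P ⟨g1, g2, g3⟩
    exact ⟨g1, g2, (key ε _ P).1 g3⟩

/-- **Generic limit points of the truncated counting functions of hyperplanes.** Let `K` be a number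
field, `n ≥ 1`, let `a 0 = 0, …, a (q - 1) = 0` be `q > n` hyperplanes of `ℙⁿ` over `K` in general
position and let `S` be a finite set of primes.

(1) Every generic limit point of `ND / h` lies in `[0, q]`, and Q1 holds for `ℙⁿ`, these hyperplanes
and `S` if and only if every generic limit point is at least `q - (n + 1)`.

(2) Let `θ ∈ [0, 1]^q`, let `I` be a set of `n` hyperplanes, `i₀` in `I` and
`σ = ∑ θ j - (q - (n + 1))`, the sum over the hyperplanes not in `I`. If `σ ≥ 0` and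
`θ j - θ i₀ ≤ 2 σ` for all `j` not in `I`, then along some generic sequence `NH (a i) / h` tends to
`θ i` for all `i` and `ND / h` tends to `∑ θ i`.

(3) Every `s` in `[q - (n + 1) + (q - (n + 1)) / (2 (q - n) - 1), q]` is a generic limit point of
`ND / h`. -/
theorem result (K : Type) [Field K] [NumberField K] (n q : ℕ) (hn : 1 ≤ n) (hq : n + 1 ≤ q)
    (a : Fin q → Fin (n + 1) → K) (ha : GeneralPosition a) (S : Finset (FinitePlace K)) :
    (∀ s, IsLimit S a s → 0 ≤ s ∧ s ≤ q) ∧
    (Q1 S a ↔ ∀ s, IsLimit S a s → (q : ℝ) - ((n : ℝ) + 1) ≤ s) ∧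
    (∀ θ : Fin q → ℝ, (∀ i, 0 ≤ θ i ∧ θ i ≤ 1) → ∀ I : Finset (Fin q), I.card = n → ∀ i₀ ∈ I,
      (q : ℝ) - ((n : ℝ) + 1) ≤ ∑ j ∈ Iᶜ, θ j →
      (∀ j, j ∉ I → θ j - θ i₀ ≤ 2 * (∑ j ∈ Iᶜ, θ j - ((q : ℝ) - ((n : ℝ) + 1)))) →
      IsJointLimit S a θ (∑ i, θ i)) ∧
    ∀ s : ℝ, (q : ℝ) - ((n : ℝ) + 1) + ((q : ℝ) - ((n : ℝ) + 1)) / (2 * ((q : ℝ) - n) - 1) ≤ s →
      s ≤ q → IsLimit S a s := by
  obtain ⟨r, hr⟩ : ∃ r : ℕ, r = q - n := ⟨_, rfl⟩
  have hqr : q = n + r := by omega
  have hr0 : 0 < r := by omega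
  have hr1 : (1 : ℝ) ≤ r := by exact_mod_cast hr0
  have e1 : (q : ℝ) - ((n : ℝ) + 1) = r - 1 := by rw [hqr]; push_cast; ring
  have e2 : (q : ℝ) - (n : ℝ) = r := by rw [hqr]; push_cast; ring
  have ha' : H57R3.VJ.GenPos a := ha
  have ha0 := ha'.ne_zero hq
  refine ⟨fun s hs => ((limit_iff S a s).1 hs).bounds ha0, q1_of S a, ?_, ?_⟩
  · intro θ hθ I hI i₀ hi₀ h1 h2
    rw [e1] at h1
    rw [e1] at h2
    exact joint_of (Q272.GL.jointH ha' S hqr hr0 I hI i₀ hi₀ θ hθ h1 h2).proj
  · intro s h1 h2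
    rw [e1, e2] at h1
    refine (limit_iff S a s).2 (Q272.GL.rangeH ha' S hn hqr hr0 s ?_ h2).proj
    have hd : (0 : ℝ) < 2 * r - 1 := by linarith
    refine le_trans (le_of_eq ?_) h1
    field_simp
    ring

end Pool.Agent.Results.MP_9ec3f0_nt.GenericLimitPoints
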