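import Pool.Agent.Q183.AM.Cartan11

/-!
# The truncated inequality for hyperplanes in general position along linear recurrences

Let `K` be a number field, `X = ℙⁿ`, and let `D` be the sum of `q` hyperplanes over `K` in general
position, so that `h_{K_X + D} = (q - n - 1) h`. Let `x(s)` be points whose coordinates are sequences
of integers of `K` with linear recurrences with constant coefficients, such that the values of the
equations of the hyperplanes are products `κ μ ^ s ∏ g_j(s) ^ e_j` of powers of such sequences `g_j`,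
with arbitrary exponents.

We show that outside finitely many hyperplanes, for every finite set `S` of places which contains
the infinite ones, `(q - n - 1) h(x(s)) ≤ N_S^(n)(D, x(s)) + (n (n + 1) / 2) log N 𝔟 + C`, where the
product of the different `g_j(s)` is the product of a squarefree ideal and of an ideal `𝔟` prime to
it, for almost all `s`, without an `ε`, and with `C + ε s` for all `s`, hence with `C + ε h(x(s))` for
all `s` with `h(x(s)) ≥ c s`. The counting function is truncated at the level `n`, as in the theorem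
of Cartan; for `n = 1` this is the inequality of Vojta for the projective line, without an exceptional
set. With the counting function truncated at the level one we obtain
`(q - n - 1) h(x(s)) ≤ M N_S^(1)(D, x(s)) + (n (n + 1) / 2) log N 𝔟 + C`, where `M ≤ n (n + 1) / 2` is the
largest of the truncated multiplicities of the bases `g_j`. Without the condition on the product the
sum of the `log |N g_j(s)|` with multiplicities takes the place of the counting function.
-/

set_option autoImplicit false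

namespace Pool.Agent.Results.MP_9ec3f0_nt.HyperplanesAlongRecurrences

open IsDedekindDomain NumberField

variable {K : Type} [Field K] [NumberField K] {n : ℕ} {I J : Type} [Fintype I] [Fintype J]

/-- `κ_i μ_i ^ s ∏ g_j(s) ^ e_ij` -/
def val (κ μ : I → 𝓞 K) (g : J → ℕ → 𝓞 K) (e : I → J → ℕ) (i : I) (s : ℕ) : 𝓞 K :=
  κ i * μ i ^ s * ∏ j, g j s ^ e i j

open Classical in
/-- the indices `j` of the bases whose exponents `e_ij` are not all equal -/
noncomputable def uneq (e : I → J → ℕ) : Finset J :=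
  Finset.univ.filter fun j => ∃ i i', e i j ≠ e i' j

/-- the truncated multiplicity of the base `g_j`: the largest of the sums over `k ≤ n` of the
`min (e_(B k)j - min_i e_ij) k`, over all injections `B` of `{0, ..., n}` into the forms; it is at most
the sum of the `min (e_ij - min_i e_ij) n`, and zero if the `e_ij` are all equal -/
noncomputable def mult (n : ℕ) (e : I → J → ℕ) (j : J) : ℕ :=
  ⨆ B : Fin (n + 1) ↪ I, ∑ k : Fin (n + 1), min (e (B k) j - ⨅ i, e i j) k

/-- the logarithmic height relative to `K` -/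
noncomputable def height (x : Fin (n + 1) → K) : ℝ :=
  ∑ w : InfinitePlace K, (w.mult : ℝ) * Real.log (⨆ k, w (x k)) +
    ∑ᶠ v : HeightOneSpectrum (𝓞 K), Real.log (⨆ k, FinitePlace.mk v (x k))

/-- the local height of the hyperplane `∑ b_k x_k = 0` at the prime `v` -/
noncomputable def localHeight (v : HeightOneSpectrum (𝓞 K)) (b x : Fin (n + 1) → K) : ℝ :=
  Real.log ((⨆ k, FinitePlace.mk v (x k)) * (⨆ k, FinitePlace.mk v (b k)) /
    FinitePlace.mk v (∑ k, b k * x k))

/-- `N_S^(m)(D, x)`, the sum over the primes `v` outside `T` and over the hyperplanes of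
`min λ_{H, v} (m log N(v))` -/
noncomputable def counting (T : Set (HeightOneSpectrum (𝓞 K))) (m : ℕ) (a : I → Fin (n + 1) → K)
    (x : Fin (n + 1) → K) : ℝ :=
  ∑ᶠ (v : HeightOneSpectrum (𝓞 K)) (_ : v ∉ T),
    ∑ i, min (localHeight v (a i) x) (m * Real.log (Ideal.absNorm v.asIdeal))

/-- `N_S^(1)(D, x)` for the whole divisor: the sum over the primes `v` outside `T` of
`min (log N(v)) (∑ λ_{H_i, v})`, so that each prime at which `x` meets `D` counts once -/
noncomputable def countingOne (T : Set (HeightOneSpectrum (𝓞 K))) (a : I → Fin (n + 1) → K)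
    (x : Fin (n + 1) → K) : ℝ :=
  ∑ᶠ (v : HeightOneSpectrum (𝓞 K)) (_ : v ∉ T),
    min (Real.log (Ideal.absNorm v.asIdeal)) (∑ i, localHeight v (a i) x)

/-- The inequality at the argument `s` with the constant `C`:
`(q - n - 1) h(x) ≤ ∑ mult_j log |N g_j(s)| + C`, and if the product of the `g_j(s)` with exponents
which are not all equal is `𝔞 𝔟` with a squarefree ideal `𝔞` prime to `𝔟`, then
`(q - n - 1) h(x) ≤ N_S^(n)(D, x) + (n (n + 1) / 2) log N 𝔟 + C` and
`(q - n - 1) h(x) ≤ (max_j mult_j) N_S^(1)(D, x) + (n (n + 1) / 2) log N 𝔟 + C`. -/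
def Vojta (T : Set (HeightOneSpectrum (𝓞 K))) (a : I → Fin (n + 1) → K) (g : J → ℕ → 𝓞 K)
    (e : I → J → ℕ) (x : Fin (n + 1) → K) (s : ℕ) (C : ℝ) : Prop :=
  ((Fintype.card I : ℝ) - (n + 1)) * height x ≤
      ∑ j, mult n e j * Real.log |((Algebra.norm ℚ (g j s : K) : ℚ) : ℝ)| + C ∧
    ∀ 𝔞 𝔟 : Ideal (𝓞 K), Ideal.span {∏ j ∈ uneq e, g j s} = 𝔞 * 𝔟 → Squarefree 𝔞 →
      IsCoprime 𝔞 𝔟 →
      ((Fintype.card I : ℝ) - (n + 1)) * height x ≤
        counting T n a x + ((n + 1).choose 2 : ℕ) * Real.log (Ideal.absNorm 𝔟) + C ∧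
      ((Fintype.card I : ℝ) - (n + 1)) * height x ≤
        (⨆ j, mult n e j : ℕ) * countingOne T a x +
          ((n + 1).choose 2 : ℕ) * Real.log (Ideal.absNorm 𝔟) + C

omit [Fintype I] [Fintype J] in
/-- the truncated multiplicities are at most `n (n + 1) / 2` -/
theorem mult_le (e : I → J → ℕ) (j : J) : mult n e j ≤ (n + 1).choose 2 :=
  Pool.Agent.Q183.AM.hloss_le e j

private theorem height_eq (x : Fin (n + 1) → 𝓞 K) (hx : x ≠ 0) :
    Height.logHeight (fun k => (x k : K)) = height fun k => (x k : K) :=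
  Pool.Agent.Q183.AM.logHeight_sum x hx

/-- the comparison with the counting function truncated at the level one, with the constant `B` -/
private def One (T : Set (HeightOneSpectrum (𝓞 K))) (a : I → Fin (n + 1) → 𝓞 K) (g : J → ℕ → 𝓞 K)
    (e : I → J → ℕ) (x : Fin (n + 1) → K) (s : ℕ) (B : ℝ) : Prop :=
  ∀ 𝔞 𝔟 : Ideal (𝓞 K), Ideal.span {∏ j ∈ uneq e, g j s} = 𝔞 * 𝔟 → Squarefree 𝔞 →
    IsCoprime 𝔞 𝔟 →
    ∑ j, mult n e j * Real.log |((Algebra.norm ℚ (g j s : K) : ℚ) : ℝ)| ≤
      (⨆ j, mult n e j : ℕ) * countingOne T (fun i k => (a i k : K)) x +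
        ((n + 1).choose 2 : ℕ) * Real.log (Ideal.absNorm 𝔟) + B

private theorem vojta_of {T : Set (HeightOneSpectrum (𝓞 K))} {a : I → Fin (n + 1) → 𝓞 K}
    {g : J → ℕ → 𝓞 K} {e : I → J → ℕ} {X : Fin (n + 1) → ℕ → 𝓞 K} {B C : ℝ} (hB : 0 ≤ B)
    (hC : 0 ≤ C) {s : ℕ} (hx : (fun k => X k s) ≠ 0)
    (h : Pool.Agent.Q183.AM.TIneq T a g e X (Real.exp C) s)
    (hone : One T a g e (fun k => (X k s : K)) s B) :
    Vojta T (fun i k => (a i k : K)) g e (fun k => (X k s : K)) s (C + B) := by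
  obtain ⟨h1, h2⟩ := h
  rw [max_eq_left (Real.one_le_exp hC), Real.log_exp, height_eq (fun k => X k s) hx] at h1
  have h0 : C ≤ C + B := by linarith
  refine ⟨h1.trans (add_le_add_right h0 _), fun 𝔞 𝔟 k1 k2 k3 => ⟨?_, ?_⟩⟩
  · have h3 := h2 𝔞 𝔟 k1 k2 k3
    rw [max_eq_left (Real.one_le_exp hC), Real.log_exp, height_eq (fun k => X k s) hx] at h3
    exact h3.trans (add_le_add_right h0 _)
  · have h3 := hone 𝔞 𝔟 k1 k2 k3
    refine h1.trans ?_
    have h4 : ∀ a b c d : ℝ, a ≤ b + c + B → a + C ≤ b + c + (C + B) := fun a b c d h => by linarith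
    exact h4 _ _ _ 0 h3

/-- **Main theorem.** Let the coordinates `X_k` and the bases `g_j` have linear recurrences, let the
`q` forms `a_i` be in general position, and let their values at `x(s)` be the
`κ_i μ_i ^ s ∏ g_j(s) ^ e_ij`. There is a finite set `Z` of hyperplanes, empty for `n = 1`, such that for
all finite sets `T` of primes:
(1) For every `η > 0` there is a constant `C` such that the inequality with `C` holds for all `s` with
`x(s)` outside `Z` and `D` except for at most `η N` among any `N` consecutive integers, for `N` large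
and from some point on.
(2) For every `ε > 0` there is a constant `C` such that the inequality with `C + ε s` holds for all
`s` with `x(s)` outside `Z` and `D`.
(3) For all `c, ε > 0` there is a constant `C` such that the inequality with `C + ε h(x(s))` holds for
all `s` with `x(s)` outside `Z` and `D` and `h(x(s)) ≥ c s`. -/
theorem result (hI : n + 1 ≤ Fintype.card I) (g : J → ℕ → 𝓞 K)
    (hg : ∀ j, ∃ E : LinearRecurrence (𝓞 K), E.IsSolution (g j))
    (X : Fin (n + 1) → ℕ → 𝓞 K) (hX : ∀ k, ∃ E : LinearRecurrence (𝓞 K), E.IsSolution (X k))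
    (a : I → Fin (n + 1) → 𝓞 K)
    (hgen : ∀ B : Fin (n + 1) ↪ I, (Matrix.of fun i k => a (B i) k).det ≠ 0)
    (κ μ : I → 𝓞 K) (hμ : ∀ i, μ i ≠ 0) (e : I → J → ℕ)
    (hL : ∀ i s, ∑ k, a i k * X k s = val κ μ g e i s) :
    ∃ Z : Set (Fin (n + 1) → K), Z.Finite ∧ (∀ c ∈ Z, c ≠ 0) ∧ (n = 1 → Z = ∅) ∧
      ∀ T : Set (HeightOneSpectrum (𝓞 K)), T.Finite →
        let Off : ℕ → Prop := fun s => (∀ c ∈ Z, ∑ k, c k * (X k s : K) ≠ 0) ∧
          ∀ i, ∑ k, (a i k : K) * (X k s : K) ≠ 0
        let V : ℝ → ℕ → Prop := fun C s =>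
          Vojta T (fun i k => (a i k : K)) g e (fun k => (X k s : K)) s C
        (∀ η : ℝ, 0 < η → ∃ (C : ℝ) (T z : ℕ), ∀ t N : ℕ, z ≤ t → T ≤ N →
          (({s | t ≤ s ∧ s < t + N ∧ Off s ∧ ¬ V C s}.ncard : ℕ) : ℝ) ≤ η * N) ∧
        (∀ ε : ℝ, 0 < ε → ∃ C : ℝ, ∀ s : ℕ, Off s → V (C + ε * s) s) ∧
        ∀ c ε : ℝ, 0 < c → 0 < ε → ∃ C : ℝ, ∀ s : ℕ, Off s →
          c * s ≤ height (fun k => (X k s : K)) →
          V (C + ε * height (fun k => (X k s : K))) s := by
  obtain ⟨Z, hZ1, hZ2, hZ3, h⟩ := Pool.Agent.Q183.AM.zall hI g hg X hX a hgen κ μ hμ e hL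
  refine ⟨Z, hZ1, hZ2, hZ3, fun T hT => ?_⟩
  obtain ⟨hA, hE⟩ := h T hT
  obtain ⟨B, hB, hone⟩ := Pool.Agent.Q183.AM.near_one (n := n) hI a hgen κ μ hμ g e T hT
    (⨆ j, mult n e j) (fun j => le_ciSup (f := fun j => mult n e j) (Set.finite_range _).bddAbove j)
  have hOne : ∀ s, (∀ i, Pool.Agent.Q183.AM.hval κ μ g e i s ≠ 0) →
      One T a g e (fun k => (X k s : K)) s B := by
    intro s hs 𝔞 𝔟 k1 k2 k3
    have h1 := hone s (fun k => X k s) (fun i => hL i s) hs 𝔞 𝔟 k1 k2 k3
    rw [Pool.Agent.Q183.AM.log_prod_hloss hs] at h1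
    exact h1
  intro Off V
  have part2 : ∀ ε : ℝ, 0 < ε → ∃ C : ℝ, ∀ s : ℕ, Off s → V (C + ε * s) s := by
    intro ε hε
    obtain ⟨C, hC, h⟩ := hE ε hε
    refine ⟨C + B, fun s hs => ?_⟩
    obtain ⟨k1, k2⟩ := Pool.Agent.Q183.AM.off_of hI hL hs.2
    have h1 := vojta_of hB (by positivity) k2 (h s hs.1 k1) (hOne s k1)
    rwa [add_right_comm] at h1
  refine ⟨fun η hη => ?_, part2, fun c ε hc hε => ?_⟩
  · obtain ⟨C, T', z, hC, h⟩ := hA η hη
    refine ⟨C + B, T', z, fun t N ht hN => Pool.Agent.Q183.AM.ncard_form (h t N ht hN) ?_⟩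
    rintro s ⟨k1, k2⟩ k3
    obtain ⟨j1, j2⟩ := Pool.Agent.Q183.AM.off_of hI hL k1.2
    exact k2 (vojta_of hB hC j2 (k3 k1.1 j1) (hOne s j1))
  · obtain ⟨C, h⟩ := part2 (ε * c) (mul_pos hε hc)
    refine ⟨C, fun s hs hcs => ?_⟩
    have h4 : ε * c * s ≤ ε * height (fun k => (X k s : K)) := by
      rw [mul_assoc]
      exact mul_le_mul_of_nonneg_left hcs hε.le
    obtain ⟨h5, h6⟩ := h s hs
    exact ⟨h5.trans (by linarith), fun 𝔞 𝔟 h1 h2 h3 => ⟨(h6 𝔞 𝔟 h1 h2 h3).1.trans (by linarith),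
      (h6 𝔞 𝔟 h1 h2 h3).2.trans (by linarith)⟩⟩

end Pool.Agent.Results.MP_9ec3f0_nt.HyperplanesAlongRecurrences
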