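import Mathlib
import Pool.Agent.Q51.VZ.TM
import Pool.Agent.Q51.VY.Trunc
import Pool.Agent.Q51.HG.SmoothCI

set_option autoImplicit false

/-!
# The truncated inequality of Vojta type without exceptional set and uniformly in the pair, for 100
percent of the pairs over `ℚ`, at the points with a sparse factorisation

Let `F 1, …, F q` be forms of degrees `d 1, …, d q` in `n + 1` variables with integral coefficients
and `C` a subset of `{1, …, q}`. Let `V` be the complete intersection `F c = 0`, `c ∈ C`, in projective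
`n`-space (all of it, if `C` is empty) and `D` the divisor `∑_{b ∉ C} (F b = 0)` of `V`. The canonical
class of `V` is `∑_{c ∈ C} d c - n - 1` times the hyperplane class.

For every `r` and every matrix `e` of exponents there is a nonzero polynomial `h` with integral
coefficients in the coefficients of the forms such that for all forms with `h (F) ≠ 0` (that is, for
100 percent of the pairs `(V, D)`) the hypersurfaces are smooth and meet transversally, and such that
for all finite sets `S` of primes and all `ε > 0` there is ONE constant `A` for ALL these pairs: all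
primitive integer points `x` of `V` off `D` and all factorisations

  `F b (x) = u b * ∏ l, z l ^ e b l`  (`b ∉ C`, `u b` an `S`-unit, the `z l` integers prime to `S`),

such that the coordinates of `x` and the factors `z l` are sums of `r` `S`-units with integer
coefficients of size at most `M`, satisfy

  `h_K(x) + h_D(x) ≤ ∑ l, log |z l| + (dim V - 1 + ε) h(x) + A (1 + log T + log M)`,

where `T` is a bound for the coefficients of the forms; the sum on the right side is the truncated
counting function `N^(1)_S(D, x)` if the `z l` are squarefree and pairwise coprime (so that `z l` is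
the product of the primes `p` outside `S` for which the vector of the orders of the `F b (x)` at `p` is
the column `l` of `e`).

There is no exceptional set, and the dependence on the pair is explicit: a multiple of the logarithm of
its height. In particular, if `∑_{c ∈ C} (d c + 1) + ∑_{b ∉ C} d b > 2 n`, then all such `S`-integral
points of `V - D` (all `z l = 1`) have height at most a power of `T M`, with an exponent independent
of the pair.
-/

namespace Pool.Agent.Results.MP_9ec3f0_nt.UniformNoExceptionalSet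

open MvPolynomial

/-- The indices of the coefficients of `q` forms of degrees `d i` in `n + 1` variables. -/
abbrev Index (n : ℕ) {q : ℕ} (d : Fin q → ℕ) : Type :=
  (i : Fin q) × {α : Fin (n + 1) →₀ ℕ // α.degree = d i}

/-- The value of the polynomial `h` at the coefficients of the forms `F i`. -/
noncomputable def valueAt {n q : ℕ} {d : Fin q → ℕ} (h : MvPolynomial (Index n d) ℤ)
    (F : Fin q → MvPolynomial (Fin (n + 1)) ℤ) : ℤ :=
  aeval (fun x : Index n d => coeff x.2.1 (F x.1)) h

/-- The hypersurfaces `F i = 0` over `ℚ` are smooth and meet transversally: in every point of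
projective space (over any field `Ω` of characteristic zero) the gradients of those `F i` that vanish
there are linearly independent. -/
def Transversal {n q : ℕ} (F : Fin q → MvPolynomial (Fin (n + 1)) ℤ) : Prop :=
  ∀ (Ω : Type) [Field Ω] [CharZero Ω] (x : Fin (n + 1) → Ω), x ≠ 0 →
    LinearIndependent Ω (fun i : {i // aeval x (F i) = 0} => fun k => aeval x (pderiv k (F i.1)))

/-- `x` is a primitive integer vector; every rational point of a projective space is represented by
exactly two of them, `x` and `-x` -/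
def IsPrimitive {n : ℕ} (x : Fin (n + 1) → ℤ) : Prop :=
  Finset.univ.gcd x = 1

/-- `max |x_i|`, the multiplicative height of the point given by a primitive `x` -/
def height {n : ℕ} (x : Fin (n + 1) → ℤ) : ℕ :=
  Finset.univ.sup (fun i => (x i).natAbs)

/-- `u` is an `S`-unit: plus or minus a product of powers (with integer exponents) of the primes in
`S` -/
def IsSUnit (S : Finset ℕ) (u : ℚ) : Prop :=
  ∃ (σ : ℤ) (e : ℕ → ℤ), (σ = 1 ∨ σ = -1) ∧ u = σ * ∏ p ∈ S, (p : ℚ) ^ e p

/-- The coordinates `x i` and the factors `z l` are sums of `r` `S`-units `t j` (the same for all of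
them) with integer coefficients of absolute value at most `M`. -/
def IsShortSum {n ν : ℕ} (S : Finset ℕ) (r : ℕ) (M : ℝ) (x : Fin (n + 1) → ℤ) (z : Fin ν → ℤ) :
    Prop :=
  ∃ (t : Fin r → ℚ) (a : Fin r → Fin (n + 1) → ℤ) (c : Fin r → Fin ν → ℤ),
    (∀ j, IsSUnit S (t j)) ∧ (∀ j i, |(a j i : ℝ)| ≤ M) ∧ (∀ j l, |(c j l : ℝ)| ≤ M) ∧
    (∀ i, (x i : ℚ) = ∑ j, t j * a j i) ∧ ∀ l, (z l : ℚ) = ∑ j, t j * c j l

/-- The truncated counting function `N^(1)_S(D, x)`, `D` the sum of the divisors `F b = 0`, `b ∈ T`: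
the sum of `log p` over the primes `p` outside `S` which divide some `F b (x)`, `b ∈ T`, each counted
once. -/
noncomputable def truncatedCounting {n q : ℕ} (S : Finset ℕ) (T : Finset (Fin q))
    (F : Fin q → MvPolynomial (Fin (n + 1)) ℤ) (x : Fin (n + 1) → ℤ) : ℝ :=
  ∑ p ∈ (∏ b ∈ T, (eval x (F b)).natAbs).primeFactors \ S, Real.log p

/-- The height for the class `K_V + D` of the complete intersection `F c = 0`, `c ∈ C`, and its
divisor `D = ∑_{b ∉ C} (F b = 0)`. -/
noncomputable def logCanonicalHeight (n : ℕ) {q : ℕ} (d : Fin q → ℕ) (C : Finset (Fin q))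
    (x : Fin (n + 1) → ℤ) : ℝ :=
  (∑ c ∈ C, (d c : ℝ) - (n + 1) + ∑ b ∈ Finset.univ \ C, (d b : ℝ)) * Real.log (height x)

theorem valueAt_eq {n q : ℕ} {d : Fin q → ℕ} (h : MvPolynomial (Index n d) ℤ)
    (F : Fin q → MvPolynomial (Fin (n + 1)) ℤ) :
    valueAt h F = Pool.Agent.Q51.HG.sp d F h := rfl

theorem transversal_of {n q : ℕ} {d : Fin q → ℕ} {h : MvPolynomial (Index n d) ℤ}
    (hh : ∀ (L : Type) [Field L] (F : Fin q → MvPolynomial (Fin (n + 1)) L),
      (∀ i, (F i).IsHomogeneous (d i)) → Pool.Agent.Q51.HG.sp d F h ≠ 0 →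
      ∀ x : Fin (n + 1) → L, x ≠ 0 →
      LinearIndependent L (fun i : {i // eval x (F i) = 0} => fun k =>
        eval x (pderiv k (F i.1))))
    (F : Fin q → MvPolynomial (Fin (n + 1)) ℤ)
    (hF : ∀ i, (F i).IsHomogeneous (d i)) (hv : valueAt h F ≠ 0) : Transversal F := by
  intro Ω _ _ x hx
  have h1 := hh Ω (fun i => map (algebraMap ℤ Ω) (F i)) (fun i => (hF i).map _) (by
    rw [Pool.Agent.Q51.HG.sp_map]
    intro h0
    apply hv
    rw [valueAt_eq]
    have h3 : (algebraMap ℤ Ω) ((Pool.Agent.Q51.HG.sp d F) h) =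
        (((Pool.Agent.Q51.HG.sp d F) h : ℤ) : Ω) := rfl
    rw [h3] at h0
    exact_mod_cast h0) x hx
  have h2 : ∀ i k, eval x (pderiv k (map (algebraMap ℤ Ω) (F i))) = aeval x (pderiv k (F i)) := by
    intro i k
    rw [pderiv_map, eval_map, ← aeval_def]
  have h3 : ∀ i, eval x (map (algebraMap ℤ Ω) (F i)) = aeval x (F i) := by
    intro i
    rw [eval_map, ← aeval_def]
  simp only [h2] at h1
  refine (h1.comp (fun i : {i // aeval x (F i) = 0} => ⟨i.1, by rw [h3]; exact i.2⟩) ?_)
  intro i i' hii
  simpa [Subtype.ext_iff] using hii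

/-- **Main theorem.** For 100 percent of the pairs `(V, D)` over `ℚ` (integral forms `F i` of degrees
`d i` with `h (F) ≠ 0`) all primitive integer points `x` of `V` off `D` with a factorisation
`F b (x) = u b * ∏ l, z l ^ e b l` such that the coordinates of `x` and the `z l` are sums of `r`
`S`-units with coefficients of size at most `M` satisfy
`h_{K + D}(x) ≤ ∑ l, log |z l| + (dim V - 1 + ε) h(x) + A (1 + log T + log M)`, where `T` is a bound
for the coefficients of the `F i` and `A` depends neither on the pair nor on the point; and the sum is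
`N^(1)_S(D, x)` if the `z l` are squarefree and pairwise coprime. -/
theorem result (n : ℕ) {q : ℕ} (d : Fin q → ℕ) (C : Finset (Fin q)) {ν : ℕ} (e : Fin q → Fin ν → ℕ)
    (he : ∀ l, ∃ b, b ∉ C ∧ e b l ≠ 0) (r : ℕ) :
    ∃ h : MvPolynomial (Index n d) ℤ, h ≠ 0 ∧
      (∀ F : Fin q → MvPolynomial (Fin (n + 1)) ℤ,
        (∀ i, (F i).IsHomogeneous (d i)) → valueAt h F ≠ 0 → Transversal F) ∧
      ∀ (S : Finset ℕ), (∀ p ∈ S, p.Prime) → ∀ ε : ℝ, 0 < ε → ∃ A : ℝ, 0 ≤ A ∧
        ∀ F : Fin q → MvPolynomial (Fin (n + 1)) ℤ,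
          (∀ i, (F i).IsHomogeneous (d i)) → valueAt h F ≠ 0 →
          ∀ T M : ℝ, 1 ≤ T → 1 ≤ M → (∀ i α, |((coeff α (F i) : ℤ) : ℝ)| ≤ T) →
          ∀ (x : Fin (n + 1) → ℤ) (z : Fin ν → ℤ), IsPrimitive x →
            (∀ c ∈ C, eval x (F c) = 0) → (∀ l, z l ≠ 0 ∧ ∀ p ∈ S, ¬ (p : ℤ) ∣ z l) →
            (∀ b, b ∉ C → ∃ u : ℚ, IsSUnit S u ∧
              ((eval x (F b) : ℤ) : ℚ) = u * ∏ l, (z l : ℚ) ^ e b l) →
            IsShortSum S r M x z →
            logCanonicalHeight n d C x ≤ ∑ l, Real.log |(z l : ℝ)| +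
              ((n : ℝ) - C.card - 1 + ε) * Real.log (height x) +
              A * (1 + Real.log T + Real.log M) ∧
            ((∀ l, Squarefree (z l)) → (∀ l l', l ≠ l' → IsCoprime (z l) (z l')) →
              ∑ l, Real.log |(z l : ℝ)| = truncatedCounting S (Finset.univ \ C) F x) := by
  classical
  obtain ⟨h1, h10, h1s⟩ := Pool.Agent.Q51.HG.gen_snc n d
  obtain ⟨h2, h20, h2s⟩ := Pool.Agent.Q51.VZ.pairsGT (n := n) d C e he r
  refine ⟨h1 * h2, mul_ne_zero h10 h20, fun F hF hv => ?_, ?_⟩
  · rw [valueAt_eq, map_mul] at hv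
    exact transversal_of h1s F hF (left_ne_zero_of_mul hv)
  intro S hS ε hε
  set b : Fin S.card → ℕ := fun v => (S.equivFin.symm v : ℕ) with hb
  have hbS : ∀ v, b v ∈ S := fun v => (S.equivFin.symm v).2
  have hbp : ∀ v, (b v).Prime := fun v => hS _ (hbS v)
  have hbi : Function.Injective b := by
    intro v v' h
    exact S.equivFin.symm.injective (Subtype.ext h)
  have hunit : ∀ u : ℚ, IsSUnit S u → Pool.Agent.TH551.SU.IsSU b u := by
    rintro u ⟨σ, e, hσ, rfl⟩
    refine ⟨σ, fun v => e (b v), hσ, ?_⟩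
    congr 1
    rw [← Finset.prod_coe_sort S (fun p => (p : ℚ) ^ e p), ← Equiv.prod_comp S.equivFin.symm]
  obtain ⟨A, hA, hmain⟩ := h2s S.card b hbp hbi ε hε
  refine ⟨A, hA, fun F hF hv T M hT hM hFT x z hx hV hz hFx hshort => ?_⟩
  rw [valueAt_eq, map_mul] at hv
  have hex : ∀ b, ∃ u : ℚ, b ∉ C → IsSUnit S u ∧
      ((eval x (F b) : ℤ) : ℚ) = u * ∏ l, (z l : ℚ) ^ e b l := by
    intro b
    by_cases hb : b ∈ C
    · exact ⟨1, fun h => absurd hb h⟩
    · obtain ⟨u, hu⟩ := hFx b hb
      exact ⟨u, fun _ => hu⟩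
  choose u hu using hex
  constructor
  · have hsh : Pool.Agent.Q51.VZ.ShortT b r M x z := by
      obtain ⟨t, a, c, e1, e2, e3, e4, e5⟩ := hshort
      exact ⟨t, a, c, fun j => hunit _ (e1 j), e2, e3, e4, e5⟩
    have key := hmain F x u z T M hT hM hF (right_ne_zero_of_mul hv) hFT hx hV
      (fun i hi => hunit _ (hu i hi).1) (fun i hi => (hu i hi).2)
      (fun l => (hz l).1) (fun l v => (hz l).2 _ (hbS v)) hsh
    have h4 : (((∑ i, (d i : ℤ)) + C.card - 2 * n : ℤ) : ℝ) *
        Real.log (height x) = logCanonicalHeight n d C x -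
          ((n : ℝ) - C.card - 1) * Real.log (height x) := by
      unfold logCanonicalHeight
      push_cast
      rw [← Finset.sum_sdiff (Finset.subset_univ C)]
      ring
    change (((∑ i, (d i : ℤ)) + C.card - 2 * n : ℤ) : ℝ) *
        Real.log (height x) ≤ ∑ l, Real.log |(z l : ℝ)| + ε * Real.log (height x) +
          A * (1 + Real.log T + Real.log M) at key
    rw [h4] at key
    linarith
  · intro hsq hcop
    have hval0 : ∀ i ∈ Finset.univ \ C, ((eval x (F i) : ℤ) : ℚ) ≠ 0 := by
      intro i hi
      have hi' := (Finset.mem_sdiff.1 hi).2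
      rw [(hu i hi').2]
      refine mul_ne_zero ?_ (Finset.prod_ne_zero_iff.2 fun l _ => pow_ne_zero _ ?_)
      · exact Pool.Agent.TH551.SU.CRV.IsSU.ne_zero hbp (hunit _ (hu i hi').1)
      · exact_mod_cast (hz l).1
    have h1 := Pool.Agent.Q51.VY.trunc_eq S hS (Finset.univ \ C)
      (fun i => ((eval x (F i) : ℤ) : ℚ)) u e z
      (fun l => (hz l).1) (fun l => (hz l).2) (fun i hi => (hu i (Finset.mem_sdiff.1 hi).2).1)
      hval0 (fun i hi => (hu i (Finset.mem_sdiff.1 hi).2).2) (fun l _ => hsq l)
      (fun l l' hne _ _ => hcop l l' hne)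
    unfold truncatedCounting
    simp only [Rat.num_intCast] at h1
    rw [h1, Finset.filter_true_of_mem]
    intro l _
    obtain ⟨i, hi, hil⟩ := he l
    exact ⟨i, Finset.mem_sdiff.2 ⟨Finset.mem_univ _, hi⟩, hil⟩

end Pool.Agent.Results.MP_9ec3f0_nt.UniformNoExceptionalSet
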